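import Mathlib
import Pool.Agent.U33.B3.Str
import Pool.Agent.U33.B3.Least
import Pool.Agent.Results.MP_d6ddbd_nt.CubicTwists

/-!
# A partial algorithm for infinitude and the multiples of every number by the primes `2` modulo `3`

There is one partial computable function `φ` on the polynomials `f(x, y)` with integer coefficients (lists
of lists of integers): whenever `φ(f)` is defined, it is the correct answer to the question whether
`f(x, y) = 0` has infinitely many rational solutions, and it is defined at `x³ + y³ - A` if there are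
infinitely many. We say that `φ` answers at `N` if it halts on all the polynomials `x³ + y³ - N m³`,
`m ≠ 0`, with the answer `false` (finitely many solutions).

`D` is ANY cube-free number with all prime factors `1` modulo `3` (`k ≥ 0` of them); nothing is assumed on
the curve `x³ + y³ = D`. The new parameter is a prime `q = 2` modulo `3`, and `N = D q` or `N = D q²`
(`e = 1, 2`). `q` runs through a class `j = 2, 5, 8` modulo `9` such that `D j ^ e` is not `±1` modulo `9`.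

* PROGRESSIONS. There are `M ≥ 1` and `a` prime to `M` such that `φ` answers at ALL the `N = D q ^ e` with
  a prime `q = a` modulo `M`; the same for the members of every finite set `𝒟` of the `D` at the same time,
  with `e` and `j` common to them, if they are pairwise coprime. More generally every pattern of answers
  for `𝒟` with a positive constant is realized by all the primes of a progression.
* LAW. For every finite set `𝒟` of the `D` and `V ⊆ 𝒟` the proportion of the `q` for which `φ` answers at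
  exactly the `D q ^ e`, `D ∈ V`, tends to the proportion `const 𝒟 V` of certain nonsingular linear systems
  over the field with three elements; it is `∏_{D ∈ V} c(D) ∏_{D ∈ 𝒟 \ V} (1 - c(D))` if the `D ∈ 𝒟` are
  pairwise coprime, and `(2 / 3) ^ k ≤ c(D) ≤ 1 - (1 / 3) ^ k` if `k ≥ 1`.
* LEAST PRIMES. There are `K` and `c₀ > 0` such that for all large `z` and for all `𝒟` with
  `modulus 𝒟 ^ 16 ≤ z`, `modulus 𝒟 = 9 ∏ p`, which is not a multiple of one exceptional number `q₁` (larger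
  than a given power of `log z`), the sum of `1 / q` over the primes `q = j` modulo `9` with the pattern `V`
  and `z < q ≤ z ^ K` is at least `c₀ const 𝒟 V`.
* STRINGS. If `const 𝒟 V > 0` then for all `m` there are infinitely many strings of `m` CONSECUTIVE primes
  of bounded diameter which are all `j` modulo `9` and have the pattern `V`.

The algorithm is that of the starting hand-in `CubicTwists`, which is used here as it stands; the laws for
its criterion are due to helper33 (`Pool.Agent.U33.B3`, used for the conjecture of Birch and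
Swinnerton-Dyer in `MP_4a9ea6_nt.InertPrimeTwists`). In the hand-ins `SuccessivePrimeMultiples` and
`SimultaneousMultiples` of this problem the new primes are `1` modulo `3`, `D` has a prime factor `2`
modulo `3`, and no answer is guaranteed for all primes of a progression.
-/

set_option autoImplicit false
set_option linter.style.haveILetI false

open scoped Classical

namespace Pool.Agent.Results.MP_d6ddbd_nt.InertPrimeMultiples

open Filter
open Pool.Agent.Y703.CX (lam)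

/-- the set `Z_f(ℚ)` of the rational zeros of `f = ∑ L_(i,j) x^i y^j` -/
def Zeros (L : List (List ℤ)) : Set (ℚ × ℚ) := {p : ℚ × ℚ |
  ∑ i ∈ Finset.range L.length, ∑ j ∈ Finset.range (L.getD i []).length,
    (((L.getD i []).getD j 0 : ℤ) : ℚ) * p.1 ^ i * p.2 ^ j = 0}

/-- the polynomial `x³ + y³ - A` -/
def cubic (A : ℤ) : List (List ℤ) := [[-A, 0, 0, 1], [], [], [1]]

/-- `φ` halts on all the polynomials `x³ + y³ - N m³`, `m ≠ 0`, with the answer `false` -/
def Answers (φ : List (List ℤ) →. Bool) (N : ℕ) : Prop :=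
  ∀ m : ℤ, m ≠ 0 → false ∈ φ (cubic (N * m ^ 3))

/-- the exponents and the classes -/
def Case (e j : ℕ) : Prop := (e = 1 ∨ e = 2) ∧ (j = 2 ∨ j = 5 ∨ j = 8)

/-- `D` is cube-free, all its prime factors are `1` modulo `3`, and `D j ^ e` is not `±1` modulo `9` -/
def Admissible (e j D : ℕ) : Prop :=
  (D ≠ 0 ∧ (∀ p : ℕ, p.Prime → ¬ p ^ 3 ∣ D) ∧ ∀ p ∈ D.primeFactors, p % 3 = 1) ∧
    (D * j ^ e) % 9 ≠ 1 ∧ (D * j ^ e) % 9 ≠ 8

/-- the linear system with the parameters `a` has only the zero solution; `lam p r` is the logarithm `c` of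
the cubic residue symbol `ω ^ c` of `r` modulo a fixed prime element of norm `p` of `ℤ[ω]`, and
`D.factorization r` is the exponent of `r` in `D` -/
def Nonsingular (D : ℕ) (a : ℕ → ZMod 3) : Prop :=
  ∀ g : ℕ → ZMod 3,
    (∀ p ∈ D.primeFactors,
      ∑ r ∈ D.primeFactors, (D.factorization r : ZMod 3) * lam p r * (g r - g p) = a p * g p) →
    ∀ p ∈ D.primeFactors, g p = 0

/-- extension by zero -/
noncomputable def ext {R : Finset ℕ} (u : R → ZMod 3) (r : ℕ) : ZMod 3 :=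
  if h : r ∈ R then u ⟨r, h⟩ else 0

/-- the proportion of the nonsingular systems -/
noncomputable def c (D : ℕ) : ℝ :=
  (Nat.card {u : D.primeFactors → ZMod 3 // Nonsingular D (ext u)} : ℝ) / 3 ^ D.primeFactors.card

/-- the prime factors of the elements of `𝒟` -/
def primes (𝒟 : Finset ℕ) : Finset ℕ := 𝒟.biUnion Nat.primeFactors

/-- the modulus -/
def modulus (𝒟 : Finset ℕ) : ℕ := 9 * ∏ r ∈ primes 𝒟, r

/-- the proportion of the vectors for which exactly the systems of the `D ∈ V` are nonsingular -/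
noncomputable def const (𝒟 V : Finset ℕ) : ℝ :=
  (Nat.card {u : primes 𝒟 → ZMod 3 // ∀ D ∈ 𝒟, (Nonsingular D (ext u) ↔ D ∈ V)} : ℝ) /
    3 ^ (primes 𝒟).card

/-- among the `D q ^ e`, `D ∈ 𝒟`, `φ` answers exactly at those with `D ∈ V` -/
def Pattern (φ : List (List ℤ) →. Bool) (e : ℕ) (𝒟 V : Finset ℕ) (q : ℕ) : Prop :=
  ∀ D ∈ 𝒟, (Answers φ (D * q ^ e) ↔ D ∈ V)

/-- the number of the primes `q ≤ X`, `q = j` modulo `9`, with the property `P` -/
noncomputable def count (j : ℕ) (P : ℕ → Prop) (X : ℕ) : ℕ :=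
  ((Finset.Icc 1 X).filter fun q => q.Prime ∧ q % 9 = j ∧ P q).card

section proof

open Pool.Agent.U33.B3
open Pool.Agent.Results.MP_4a9ea6_nt.JointPrimeTwists (Good good_iff)

/-- the property of `φ` used for the laws -/
def Decides (φ : List (List ℤ) →. Bool) : Prop :=
  ∀ (D : ℕ) (m : ℤ), CubicTwists.Class D → m ≠ 0 →
    (false ∈ φ (cubic (D * m ^ 3)) ↔ CubicTwists.TrivialThree D)

theorem answers_good {φ : List (List ℤ) →. Bool} (hφ : Decides φ) {e j D q : ℕ} (hD : Adm3 e j D)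
    (he : e = 1 ∨ e = 2) (hj : j = 2 ∨ j = 5 ∨ j = 8) (hq : q.Prime) (hq9 : q % 9 = j) :
    Answers φ (D * q ^ e) ↔ Good (D * q ^ e) := by
  have hN := cls_pow hD he hj hq hq9
  have hC : CubicTwists.Class (D * q ^ e) := (CubicTwists.class_iff _).2 hN
  rw [Pool.Agent.Results.MP_4a9ea6_nt.JointPrimeTwists.good_iff hN,
    ← Pool.Agent.R395.CT.triv3_iff hN, ← CubicTwists.three_iff]
  exact ⟨fun h => (hφ _ 1 hC one_ne_zero).1 (h 1 one_ne_zero), fun h m hm => (hφ _ m hC hm).2 h⟩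

theorem pattern_good {φ : List (List ℤ) →. Bool} (hφ : Decides φ) {e j : ℕ} {𝒟 V : Finset ℕ}
    (hD : ∀ D ∈ 𝒟, Adm3 e j D) (he : e = 1 ∨ e = 2)
    (hj : j = 2 ∨ j = 5 ∨ j = 8) {q : ℕ} (hq : q.Prime) (hq9 : q % 9 = j) :
    Pattern φ e 𝒟 V q ↔ ∀ D ∈ 𝒟, (Good (D * q ^ e) ↔ D ∈ V) := by
  unfold Pattern
  refine forall₂_congr fun D h => ?_
  rw [answers_good hφ (hD D h) he hj hq hq9]

theorem lim_congr {j : ℕ} {P Q : ℕ → Prop}
    (h : ∀ q : ℕ, q.Prime → q % 9 = j → (P q ↔ Q q)) {L : ℝ}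
    (hQ : Tendsto (fun X : ℕ => (count j Q X : ℝ) / (count j (fun _ => True) X : ℝ)) atTop (nhds L)) :
    Tendsto (fun X : ℕ => (count j P X : ℝ) / (count j (fun _ => True) X : ℝ)) atTop (nhds L) := by
  have e : ∀ X, count j P X = count j Q X := by
    intro X
    unfold count
    congr 1
    refine Finset.filter_congr fun q _ => ?_
    exact and_congr_right fun h1 => and_congr_right fun h2 => h q h1 h2
  simpa only [e] using hQ

end proof

open Pool.Agent.U33.B3 in
open Pool.Agent.Results.MP_4a9ea6_nt.JointPrimeTwists (Good good_iff) in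
/-- **Main theorem.** There is a partial computable function `φ` on the polynomials such that:
(1) if `φ(f)` is defined, it is `true` if and only if `f` has infinitely many rational zeros;
(2) `φ` is defined at `x³ + y³ - A` if this polynomial has infinitely many rational zeros;
(3) the answer at `D q ^ e` depends only on the class of `q` modulo the prime factors of `D` (and `9`);
bounds for `c`; (4) progressions; (5) the law; (6) least primes; (7) strings of consecutive primes. -/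
theorem result :
    ∃ φ : List (List ℤ) →. Bool, Partrec φ ∧
      (∀ L, ∀ r ∈ φ L, (r = true ↔ (Zeros L).Infinite)) ∧
      (∀ A : ℤ, (Zeros (cubic A)).Infinite → (φ (cubic A)).Dom) ∧
      -- one number
      (∀ e j D : ℕ, Case e j → Admissible e j D →
        (∀ q q' : ℕ, q.Prime → q'.Prime → q % 9 = j → q' % 9 = j →
          (∀ p ∈ D.primeFactors, q ≡ q' [MOD p]) →
            (Answers φ (D * q ^ e) ↔ Answers φ (D * q' ^ e))) ∧
        (2 / 3 : ℝ) ^ D.primeFactors.card ≤ c D ∧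
        (D ≠ 1 → c D ≤ 1 - (1 / 3 : ℝ) ^ D.primeFactors.card)) ∧
      -- progressions
      (∀ (e j : ℕ) (𝒟 V : Finset ℕ), Case e j → (∀ D ∈ 𝒟, Admissible e j D) → 0 < const 𝒟 V →
        ∃ M a : ℕ, 1 ≤ M ∧ a.Coprime M ∧ ∀ q : ℕ, q.Prime → q ≡ a [MOD M] →
          q % 9 = j ∧ Pattern φ e 𝒟 V q) ∧
      (∀ (e j : ℕ) (𝒟 : Finset ℕ), Case e j → (∀ D ∈ 𝒟, Admissible e j D) →
        (∀ D ∈ 𝒟, ∀ D' ∈ 𝒟, D ≠ D' → Nat.Coprime D D') →
        ∃ M a : ℕ, 1 ≤ M ∧ a.Coprime M ∧ ∀ q : ℕ, q.Prime → q ≡ a [MOD M] →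
          q % 9 = j ∧ ∀ D ∈ 𝒟, Answers φ (D * q ^ e)) ∧
      -- the law
      (∀ (e j : ℕ) (𝒟 V : Finset ℕ), Case e j → (∀ D ∈ 𝒟, Admissible e j D) → V ⊆ 𝒟 →
        Tendsto (fun X : ℕ => (count j (Pattern φ e 𝒟 V) X : ℝ) / (count j (fun _ => True) X : ℝ))
          atTop (nhds (const 𝒟 V)) ∧
        ((∀ D ∈ 𝒟, ∀ D' ∈ 𝒟, D ≠ D' → Nat.Coprime D D') →
          const 𝒟 V = (∏ D ∈ V, c D) * ∏ D ∈ 𝒟 \ V, (1 - c D))) ∧
      -- least primes
      (∃ (K : ℕ) (c₀ : ℝ), 1 ≤ K ∧ 0 < c₀ ∧ ∀ B : ℕ, ∃ z₀ : ℕ, ∀ z : ℕ, z₀ ≤ z →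
        ∃ q₁ : ℕ, (Real.log z) ^ B < (q₁ : ℝ) ∧ ∀ (e j : ℕ) (𝒟 V : Finset ℕ), Case e j →
          (∀ D ∈ 𝒟, Admissible e j D) → (modulus 𝒟) ^ 16 ≤ z → ¬ q₁ ∣ modulus 𝒟 →
            c₀ * const 𝒟 V ≤ ∑ q ∈ (Finset.Ioc z (z ^ K)).filter
              (fun q => q.Prime ∧ q % 9 = j ∧ Pattern φ e 𝒟 V q), (1 : ℝ) / q) ∧
      -- strings
      (∀ (e j : ℕ) (𝒟 V : Finset ℕ), Case e j → (∀ D ∈ 𝒟, Admissible e j D) → 0 < const 𝒟 V →
        ∀ m : ℕ, ∃ H : ℕ, ∀ N : ℕ, ∃ q : Fin m → ℕ, StrictMono q ∧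
          (∀ i, N ≤ q i ∧ (q i).Prime ∧ q i % 9 = j ∧ Pattern φ e 𝒟 V (q i)) ∧
          (∀ i i', q i' ≤ q i + H) ∧
          (∀ r : ℕ, r.Prime → ∀ i i', q i ≤ r → r ≤ q i' → ∃ k, r = q k)) := by
  obtain ⟨φ, hφ, hsound, hcomp, hdec, -⟩ := CubicTwists.result
  have hd : Decides φ := hdec
  have hprog : ∀ (e j : ℕ) (𝒟 V : Finset ℕ), Case e j → (∀ D ∈ 𝒟, Admissible e j D) →
      0 < const 𝒟 V → ∃ M a : ℕ, 1 ≤ M ∧ a.Coprime M ∧ ∀ q : ℕ, q.Prime → q ≡ a [MOD M] →
        q % 9 = j ∧ Pattern φ e 𝒟 V q := by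
    intro e j 𝒟 V hc h𝒟 hpos
    obtain ⟨M, a, hM, hcop, hcls⟩ := exists_class3 (V := V) h𝒟 hc.1 hc.2 hpos
    refine ⟨M, a, hM, hcop, fun q hq hqa => ?_⟩
    obtain ⟨h1, h2⟩ := hcls q hq hqa
    exact ⟨h1, (pattern_good hd h𝒟 hc.1 hc.2 hq h1).2 h2⟩
  refine ⟨φ, hφ, hsound, hcomp, fun e j D hc hD => ⟨fun q q' hq hq'
    hq9 hq9' h => ?_, c2_ge D, fun h1 => c2_le ?_⟩, hprog, fun e j 𝒟 hc h𝒟 hco => ?_,
    fun e j 𝒟 V hc h𝒟 hV => ⟨?_, fun hco => pconst_prod hco hV (sub_primes 𝒟)⟩, ?_,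
    fun e j 𝒟 V hc h𝒟 hpos m => ?_⟩
  · rw [answers_good hd hD hc.1 hc.2 hq hq9, answers_good hd hD hc.1 hc.2 hq' hq9']
    exact good_congr hD hc.1 hc.2 hq hq9 hq' hq9' h
  · rw [Finset.nonempty_iff_ne_empty]
    intro h2
    rcases Nat.primeFactors_eq_empty.1 h2 with h3 | h3
    · exact hD.1.1 h3
    · exact h1 h3
  · have hpos : 0 < const 𝒟 𝒟 := by
      have h1 : const 𝒟 𝒟 = (∏ D ∈ 𝒟, c D) * ∏ D ∈ 𝒟 \ 𝒟, (1 - c D) :=
        pconst_prod hco (Finset.Subset.refl 𝒟) (sub_primes 𝒟)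
      rw [h1, Finset.sdiff_self, Finset.prod_empty, mul_one]
      exact Finset.prod_pos fun D _ => lt_of_lt_of_le (by positivity) (c2_ge D)
    obtain ⟨M, a, h1, h2, h3⟩ := hprog e j 𝒟 𝒟 hc h𝒟 hpos
    exact ⟨M, a, h1, h2, fun q hq hqa => ⟨(h3 q hq hqa).1, fun D hD =>
      ((h3 q hq hqa).2 D hD).2 hD⟩⟩
  · exact lim_congr (fun q hq hq9 => pattern_good hd h𝒟 hc.1 hc.2 hq hq9)
      (dens_pattern h𝒟 hc.1 hc.2)
  · obtain ⟨K, c₀, hK, hc₀, h⟩ := least_pattern
    refine ⟨K, c₀, hK, hc₀, fun B => ?_⟩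
    obtain ⟨z0, h0⟩ := h B
    refine ⟨z0, fun z hz => ?_⟩
    obtain ⟨q1, hq1, h1⟩ := h0 z hz
    refine ⟨q1, hq1, fun e j 𝒟 V hc h𝒟 h16 hnd => ?_⟩
    refine (h1 e j 𝒟 V hc.1 hc.2 h𝒟 h16 hnd).trans (le_of_eq ?_)
    refine Finset.sum_congr ?_ fun _ _ => rfl
    refine Finset.filter_congr fun q _ => ?_
    exact and_congr_right fun hqp => and_congr_right fun hq9 =>
      (pattern_good hd h𝒟 hc.1 hc.2 hqp hq9).symm
  · obtain ⟨M, a, hM, hcop, hcls⟩ := exists_class3 (V := V) h𝒟 hc.1 hc.2 hpos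
    obtain ⟨H, hH⟩ := strings_class hM hcop m
    refine ⟨H, fun N => ?_⟩
    obtain ⟨q, h1, h2, h3, h4⟩ := hH N
    refine ⟨q, h1, fun i => ?_, h3, h4⟩
    obtain ⟨a1, a2, a3⟩ := h2 i
    obtain ⟨b1, b2⟩ := hcls _ a2 a3
    exact ⟨a1, a2, b1, (pattern_good hd h𝒟 hc.1 hc.2 a2 b1).2 b2⟩

end Pool.Agent.Results.MP_d6ddbd_nt.InertPrimeMultiples
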