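import Mathlib
import Pool.Agent.U845.TI.Cmp
import Pool.Agent.U845.TI.Cnv
import Pool.Agent.U115.GE.Dens
import Pool.Agent.U115.GE.Ex

/-!
# A partial algorithm for all elliptic curves with a rational isogeny of degree two

We construct one partial computable function `φ` on the set of the polynomials `f(x, y)` with integer
coefficients (lists of coefficient lists). Whenever `φ(f)` is defined, it answers correctly the question
whether `f(x, y) = 0` has infinitely many rational solutions. On the curves `y² = x³ + A x² + B x`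
(`B (A² - 4 B) ≠ 0`), that is, on all elliptic curves over `ℚ` with a rational point of order two:

* it is defined whenever there are infinitely many rational points;
* it has the value `false` if and only if the Selmer groups of the isogeny of degree two and of its
  dual are as small as possible (`#Sel · #Sel' = 4`);
* if neither `B` nor `A² - 4 B` is a square, this is equivalent to: `E(ℚ)` and `E'(ℚ)` are finite and
  `Ш(E/ℚ)[2^∞] = Ш(E'/ℚ)[2^∞] = 0`, `E'` the isogenous curve. So `φ` is defined at all these curves except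
  for those of rank `0` with a nontrivial `Ш(E)[2^∞]` or `Ш(E')[2^∞]`;
* in the classes of quadratic twists `E_D` of helper115's theorem `MP_e23604_nt.ExactProportionTwoIsogeny`
  of every such curve `E` with `#Sel · #Sel' = 4`, the proportion of the `D` for which `φ` answers `false`
  tends to `∏_{i ≥ 0} (1 - 2^{-(2i+1)}) = 0.4194...`.

The two searches: a rational point whose height is greater than an explicit constant (then the doubling
map gives points of larger and larger height), and a list of at most four pairs of classes such that all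
the other classes of the two descents have certificates of local insolubility (no real point, or no
primitive solution modulo a power of a prime; that such certificates exist is a compactness argument).

The law of the twists and the bound of the rank by the Selmer groups are theorems of the project
`Pool/Agent/U115/GE` (helper115, with helper295, helper439, helper2, helper643, helper674, helper234,
helper158, helper998, helper798, helper796, helper739). The scheme of the two searches is the one of the
starting files `Pool/Agent/R395/CT` (helper395) for `x³ + y³ = A`; the searches, their computability and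
the converse criterion are in `Pool/Agent/U845/TI` (helper845).
-/

set_option autoImplicit false

open scoped Classical

namespace Pool.Agent.Results.MP_d6ddbd_nt.PartialAlgorithmTwoIsogeny

open Pool.Agent.TH841.NF.D (Sha)

/-- the set `Z_f(ℚ)` of the rational zeros of `f = ∑ L_(i,j) x^i y^j` -/
def Zeros (L : List (List ℤ)) : Set (ℚ × ℚ) := {p : ℚ × ℚ |
  ∑ i ∈ Finset.range L.length, ∑ j ∈ Finset.range (L.getD i []).length,
    (((L.getD i []).getD j 0 : ℤ) : ℚ) * p.1 ^ i * p.2 ^ j = 0}

/-- the polynomial `y² - x³ - A x² - B x` -/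
def curve (A B : ℤ) : List (List ℤ) := [[0, 0, 1], [-B], [-A], [-1]]

/-- the curve `y² = x³ + A x² + B x` over `ℚ` -/
def E (A B : ℤ) : WeierstrassCurve ℚ := ⟨0, (A : ℚ), 0, (B : ℚ), 0⟩

/-- the group of the rational points of `y² = x³ + A x² + B x` is finite and `Ш[2^∞] = 0` -/
def TrivialTwo (A B : ℤ) : Prop :=
  Finite (E A B).toAffine.Point ∧ ∀ (n : ℕ) (x : Sha (E A B)), 2 ^ n • x = 0 → x = 0

/-- the quartic of `d` has a nontrivial point over `K` -/
def Quartic (K : Type) [Field K] (a b d : ℤ) : Prop :=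
  ∃ N M e : K, (M ≠ 0 ∨ e ≠ 0) ∧
    N ^ 2 = (d : K) * M ^ 4 + (a : K) * M ^ 2 * e ^ 2 + (b : K) / (d : K) * e ^ 4

/-- the Selmer group of the isogeny of degree two of `y² = x³ + a x² + b x` -/
def Sel (a b : ℤ) : Set ℤ :=
  {d | Squarefree d ∧ Quartic ℝ a b d ∧ ∀ (p : ℕ) [Fact p.Prime], Quartic ℚ_[p] a b d}

/-- `n` is `1` modulo `8` and a nonzero square modulo the odd primes dividing `b (a² - 4 b)` -/
def Res (a b : ℤ) (n : ℕ) : Prop := n % 8 = 1 ∧ ∀ l : ℕ, l.Prime → l ≠ 2 →
  (l : ℤ) ∣ b * (a ^ 2 - 4 * b) → ¬ l ∣ n ∧ IsSquare (n : ZMod l)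

/-- the inert primes -/
def Inert (a b : ℤ) (q : ℕ) : Prop := q ≠ 2 ∧ ¬ IsSquare (b : ZMod q) ∧
  ¬ IsSquare ((a ^ 2 - 4 * b : ℤ) : ZMod q)

/-- the class of the numbers `D` -/
def Class (a b : ℤ) (D : ℕ) : Prop := Squarefree D ∧ Res a b D ∧
  ∀ p ∈ D.primeFactors, Res a b p ∨ Inert a b p

/-- the proportion of the `D` of the class with the property `P` tends to `γ` -/
def Proportion (a b : ℤ) (P : ℕ → Prop) (γ : ℝ) : Prop :=
  Filter.Tendsto (fun X : ℕ =>
    (((Finset.Icc 1 X).filter fun D => Class a b D ∧ P D).card : ℝ) /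
      (((Finset.Icc 1 X).filter fun D => Class a b D).card : ℝ)) Filter.atTop (nhds γ)

theorem class_iff (a b : ℤ) (D : ℕ) : Class a b D ↔ Pool.Agent.U115.GE.Class a b D := by
  refine and_congr_right fun _ => and_congr_right fun _ => forall₂_congr fun p hp => ?_
  have hpp := Nat.prime_of_mem_primeFactors hp
  exact or_congr ⟨fun h => ⟨hpp, h⟩, fun h => h.2⟩ ⟨fun h => ⟨hpp, h⟩, fun h => h.2⟩

theorem zeros_eq (A B : ℤ) : Zeros (curve A B) = Pool.Agent.U845.TI.Sol A B := by
  ext ⟨x, y⟩
  unfold Zeros curve Pool.Agent.U845.TI.Sol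
  simp only [Set.mem_ofPred_eq, List.length_cons, List.length_nil, Finset.sum_range_succ,
    Finset.sum_range_zero, List.getD_cons_zero, List.getD_cons_succ, List.getD_nil]
  push_cast
  constructor
  · intro h
    linear_combination h
  · intro h
    linear_combination h

/-- **Theorem.** There is a partial computable function `φ` from the lists of lists of integers
(polynomials `f(x, y)`) to `{true, false}` such that
(1) if `φ(f)` is defined, then it is `true` if and only if `f` has infinitely many rational zeros;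
(2) for all integers `A`, `B` with `B (A² - 4 B) ≠ 0`: if `y² = x³ + A x² + B x` has infinitely many
rational solutions, then `φ` is defined at this curve (with the value `true`, by (1));
(3) for these `A`, `B`: `φ` has the value `false` if and only if `#Sel · #Sel' = 4`;
(4) if neither `B` nor `A² - 4 B` is a square, then `φ` is defined at `y² = x³ + A x² + B x` if and only
if there are infinitely many rational points, or this curve and the isogenous one have finitely many
rational points and trivial groups `Ш[2^∞]`;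
(5) if neither `b` nor `a² - 4 b` is a square and `#Sel · #Sel' = 4` for `a`, `b`, then for the `D` of the
class `φ` has the value `false` at the twist `y² = x³ + a D x² + b D² x` if and only if this twist has
finitely many rational points and `Ш[2^∞] = 0`; the proportion of these `D` in the class tends to
`∏_{i ≥ 0} (1 - 2^{-(2i+1)})`;
(6) this number is between `0.4194` and `0.4195`; `a = 13`, `b = 128` is an example for (5). -/
theorem result :
    ∃ φ : List (List ℤ) →. Bool, Partrec φ ∧
    (∀ L, ∀ r ∈ φ L, (r = true ↔ (Zeros L).Infinite)) ∧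
    (∀ A B : ℤ, B ≠ 0 → A ^ 2 - 4 * B ≠ 0 → (Zeros (curve A B)).Infinite →
      (φ (curve A B)).Dom) ∧
    (∀ A B : ℤ, B ≠ 0 → A ^ 2 - 4 * B ≠ 0 → (false ∈ φ (curve A B) ↔
      (Sel A B).ncard * (Sel (-2 * A) (A ^ 2 - 4 * B)).ncard = 4)) ∧
    (∀ A B : ℤ, ¬ IsSquare B → ¬ IsSquare (A ^ 2 - 4 * B) → ((φ (curve A B)).Dom ↔
      (Zeros (curve A B)).Infinite ∨ (TrivialTwo A B ∧ TrivialTwo (-2 * A) (A ^ 2 - 4 * B)))) ∧
    (∀ a b : ℤ, ¬ IsSquare b → ¬ IsSquare (a ^ 2 - 4 * b) →
      (Sel a b).ncard * (Sel (-2 * a) (a ^ 2 - 4 * b)).ncard = 4 →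
      (∀ D : ℕ, Class a b D →
        (false ∈ φ (curve (a * D) (b * D ^ 2)) ↔ TrivialTwo (a * D) (b * D ^ 2))) ∧
      Proportion a b (fun D => false ∈ φ (curve (a * D) (b * D ^ 2)))
        (∏' i : ℕ, (1 - (1 / 2 : ℝ) ^ (2 * i + 1)))) ∧
    0.4194 < ∏' i : ℕ, (1 - (1 / 2 : ℝ) ^ (2 * i + 1)) ∧
    ∏' i : ℕ, (1 - (1 / 2 : ℝ) ^ (2 * i + 1)) < 0.4195 ∧
    ¬ IsSquare (128 : ℤ) ∧ ¬ IsSquare (13 ^ 2 - 4 * 128 : ℤ) ∧
    (Sel 13 128).ncard * (Sel (-2 * 13) (13 ^ 2 - 4 * 128)).ncard = 4 := by
  obtain ⟨φ, hφ, hdom, hval⟩ := Pool.Agent.U845.TI.exists_alg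
  have hinf : ∀ L, Pool.Agent.U845.TI.PInf L → (Zeros L).Infinite := by
    intro L h
    obtain ⟨w, h0, -⟩ := id h
    rw [h0] at h ⊢
    have e : Zeros (Pool.Agent.U845.TI.curve w.1.1 w.1.2) = _ := zeros_eq w.1.1 w.1.2
    rw [e]
    exact (Pool.Agent.U845.TI.pInf_iff.1 h).2.2
  have hfin : ∀ L, Pool.Agent.U845.TI.PFin L → ¬ (Zeros L).Infinite := by
    intro L h
    obtain ⟨w, h0, -⟩ := id h
    rw [h0] at h ⊢
    have e : Zeros (Pool.Agent.U845.TI.curve w.1 w.2) = _ := zeros_eq w.1 w.2
    rw [e, Set.not_infinite]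
    obtain ⟨hB, hC, hc⟩ := Pool.Agent.U845.TI.pFin_iff.1 h
    exact Pool.Agent.U845.TI.sol_fin hB hC (Pool.Agent.U845.TI.fin_of hB hC
      ((Pool.Agent.U845.TI.cert_iff hB hC).1 hc)).1
  have hsound : ∀ L, ∀ r ∈ φ L, (r = true ↔ (Zeros L).Infinite) := by
    intro L r hr
    rcases hval L r hr with ⟨rfl, h⟩ | ⟨rfl, h⟩
    · exact ⟨fun _ => hinf L h, fun _ => rfl⟩
    · exact ⟨fun h' => Bool.noConfusion h', fun h' => absurd h' (hfin L h)⟩
  have hfalse : ∀ L, false ∈ φ L ↔ Pool.Agent.U845.TI.PFin L := by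
    intro L
    constructor
    · intro h
      rcases hval _ _ h with ⟨h1, -⟩ | ⟨-, h1⟩
      · exact Bool.noConfusion h1
      · exact h1
    · intro h
      obtain ⟨r, hr⟩ := Part.dom_iff_mem.1 ((hdom L).2 (Or.inr h))
      rcases hval _ _ hr with ⟨-, h1⟩ | ⟨h1, -⟩
      · exact absurd (hinf _ h1) (hfin _ h)
      · rw [h1] at hr
        exact hr
  have hcomp : ∀ A B : ℤ, B ≠ 0 → A ^ 2 - 4 * B ≠ 0 → (Zeros (curve A B)).Infinite →
      (φ (curve A B)).Dom := by
    intro A B hB hC h
    rw [zeros_eq] at h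
    exact (hdom _).2 (Or.inl (Pool.Agent.U845.TI.pInf_iff.2 ⟨hB, hC, h⟩))
  have hsel : ∀ A B : ℤ, B ≠ 0 → A ^ 2 - 4 * B ≠ 0 → (false ∈ φ (curve A B) ↔
      (Sel A B).ncard * (Sel (-2 * A) (A ^ 2 - 4 * B)).ncard = 4) := by
    intro A B hB hC
    rw [hfalse]
    refine Iff.trans Pool.Agent.U845.TI.pFin_iff ?_
    rw [Pool.Agent.U845.TI.cert_iff hB hC]
    exact ⟨fun h => h.2.2, fun h => ⟨hB, hC, h⟩⟩
  have hsq : ∀ {B : ℤ}, ¬ IsSquare B → B ≠ 0 := by
    rintro B h rfl
    exact h ⟨0, by norm_num⟩
  obtain ⟨-, -, -, hc1, hc2⟩ := Pool.Agent.Y948.CQ.t_C2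
  obtain ⟨e1, e2⟩ := Pool.Agent.U115.GE.sel_X14
  refine ⟨φ, hφ, hsound, hcomp, hsel, ?_, ?_, hc1, hc2, ?_, ?_, ?_⟩
  · intro A B nB nC
    have hB := hsq nB
    have hC := hsq nC
    have key := Pool.Agent.U845.TI.tr_iff nB nC
    constructor
    · intro h
      obtain ⟨r, hr⟩ := Part.dom_iff_mem.1 h
      cases r with
      | true => exact Or.inl ((hsound _ _ hr).1 rfl)
      | false => exact Or.inr (key.1 ((hsel A B hB hC).1 hr))
    · rintro (h | h)
      · exact hcomp A B hB hC h
      · exact Part.dom_iff_mem.2 ⟨false, (hsel A B hB hC).2 (key.2 h)⟩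
  · intro a b nb nc h4
    have hb0 := hsq nb
    have hc0 := hsq nc
    have hG := Pool.Agent.U739.GE.t_GOOD
    have hBd := Pool.Agent.U796.GE.t_BND
    have main : ∀ D : ℕ, Class a b D → (false ∈ φ (curve (a * D) (b * D ^ 2)) ↔
        Pool.Agent.U115.GE.cork a b D = 0) ∧ (TrivialTwo (a * D) (b * D ^ 2) ↔
        Pool.Agent.U115.GE.cork a b D = 0) := by
      intro D h
      have h' := (class_iff a b D).1 h
      have hH := Pool.Agent.U115.GE.class_hg hb0 hc0 h'
      have hk := Pool.Agent.U115.GE.class_kap hb0 hc0 h'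
      have hD := Pool.Agent.U115.GE.prod_eq (a := a) (b := b) h.1
      have e1 := hH.sel_eq hG
      have e2 := hH.sel_eq' hG
      rw [← hD, hk] at e1 e2
      have k1 : 2 ^ Pool.Agent.U115.GE.cork a b D = 1 ↔ Pool.Agent.U115.GE.cork a b D = 0 := by
        constructor
        · intro h2
          by_contra h3
          have := Nat.one_lt_two_pow h3
          omega
        · intro h2
          rw [h2, pow_zero]
      constructor
      · rw [hsel _ _ (hH.b0 hD) (hH.c0 hD), ← k1]
        have e1' : (Sel (a * D) (b * D ^ 2)).ncard = 2 ^ Pool.Agent.U115.GE.cork a b D *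
          (Sel a b).ncard := e1
        have e2' : (Sel (-2 * (a * D)) ((a * D) ^ 2 - 4 * (b * D ^ 2))).ncard =
          2 ^ Pool.Agent.U115.GE.cork a b D * (Sel (-2 * a) (a ^ 2 - 4 * b)).ncard := e2
        rw [e1', e2']
        have e3 : 2 ^ Pool.Agent.U115.GE.cork a b D * (Sel a b).ncard *
            (2 ^ Pool.Agent.U115.GE.cork a b D * (Sel (-2 * a) (a ^ 2 - 4 * b)).ncard) =
            (2 ^ Pool.Agent.U115.GE.cork a b D * 2 ^ Pool.Agent.U115.GE.cork a b D) *
            ((Sel a b).ncard * (Sel (-2 * a) (a ^ 2 - 4 * b)).ncard) := by ring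
        rw [e3, h4]
        constructor
        · intro h5
          exact Nat.eq_one_of_mul_eq_one_right (m := 2 ^ Pool.Agent.U115.GE.cork a b D)
            (n := 2 ^ Pool.Agent.U115.GE.cork a b D) (by omega)
        · intro h5
          rw [h5]
      · have h1 := hH.iff hG hBd nb nc h4 hD
        rw [hk, k1, Pool.Agent.U115.GE.twE_eq] at h1
        exact h1
    refine ⟨fun D h => ((main D h).1.trans (main D h).2.symm), ?_⟩
    refine (Pool.Agent.U115.GE.dens nb nc).congr fun X =>
      congrArg₂ (fun a b : ℕ => (a : ℝ) / (b : ℝ)) ?_ ?_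
    · refine congrArg Finset.card (Finset.ext fun D => ?_)
      rw [Finset.mem_filter, Finset.mem_filter]
      refine and_congr_right fun _ => ?_
      rw [← class_iff]
      exact and_congr_right fun h => (main D h).1.symm
    · refine congrArg Finset.card (Finset.ext fun D => ?_)
      rw [Finset.mem_filter, Finset.mem_filter, class_iff]
  · rintro ⟨s, hs⟩
    have h1 : s ≤ 11 := by nlinarith
    have h2 : -11 ≤ s := by nlinarith
    interval_cases s <;> omega
  · rintro ⟨s, hs⟩
    nlinarith [mul_self_nonneg s]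
  · have e1' : (Sel 13 128).ncard = 2 := e1
    have e2' : (Sel (-2 * 13) (13 ^ 2 - 4 * 128)).ncard = 2 := e2
    rw [e1', e2']

end Pool.Agent.Results.MP_d6ddbd_nt.PartialAlgorithmTwoIsogeny
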