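import Mathlib
import Pool.Agent.U687.MC.RatMain
import Pool.Agent.U687.MC.Bd2
import Pool.Agent.Results.MP_d6ddbd_nt.CubicTwists

/-!
# A partial algorithm for infinitude and the successive prime multiples of EVERY number `D`

There is one partial computable function `φ` on the polynomials `f(x, y)` with integer coefficients (lists
of lists of integers) such that:

* whenever `φ(f)` is defined, it is the correct answer to the question whether `f(x, y) = 0` has infinitely
  many rational solutions; it is defined at `x³ + y³ - A` if there are infinitely many;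
* let `D` be ANY cube-free number, prime to `3`, with exactly one prime divisor `2` modulo `3` and with `n`
  prime divisors `1` modulo `3`; nothing is assumed on the curve `x³ + y³ = D`, its rank and its group `Ш`
  can be as large as one likes. Multiply `D` successively by primes `ℓ_k, …, ℓ_1, ℓ_0`, which vary in this
  order, `ℓ_i = j_i` modulo `9` with arbitrary `j_i = 1, 4, 7` such that `D j_k ⋯ j_0` is not `±1` modulo
  `9`. The iterated proportion `P_{k+1}` of the multiples `N = D ℓ_k ⋯ ℓ_0` such that `φ` halts on all the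
  polynomials `x³ + y³ - N m³`, `m ≠ 0`, with the answer `false` (finitely many solutions) exists, and it
  is the probability of the state `0` at the time `k` of the Markov chain with the transitions
  `r → r - 1`: `(1 - 3^{-r})²`, `r → r + 1`: `3^{-(2r+1)}`, `r → r` otherwise, started with the law of the
  corank of the matrix of the cubic residue symbols of the prime divisors of `D`, with a random diagonal
  and a random additional row;
* `(2/3)^{n+1+k} ≤ P_{k+1} ≤ 2/3` and `|P_{k+1} - 0.5601...| ≤ (2^n + 1) (2/3)^k`, the limit is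
  `∏_{i ≥ 1} (1 - 3^{-i})`; in particular (`k = 0`) for every `D` the algorithm halts at `x³ + y³ - D ℓ m³`
  for all `m` for at least the proportion `(2/3)^{n+1}` of the primes `ℓ = j` modulo `9`, and for
  infinitely many `ℓ`.

The starting hand-ins of this problem (`CubicTwists` and others) give the proportion of the successes among
ALL numbers of a class only; the multiples of one `D` by few primes have proportion zero there. The
algorithm is that of the starting hand-in `CubicTwists`; the law of the criterion in the iterated prime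
multiples is due to helper687 (`Pool.Agent.U687.MC`, used for the conjecture of Birch and Swinnerton-Dyer in
`MP_4a9ea6_nt.IteratedPrimeTwists`).
-/

set_option autoImplicit false

open scoped Classical

namespace Pool.Agent.Results.MP_d6ddbd_nt.SuccessivePrimeMultiples

open Filter
open Pool.Agent.Y703.CX (lam)

/-- the set `Z_f(ℚ)` of the rational zeros of `f = ∑ L_(i,j) x^i y^j` -/
def Zeros (L : List (List ℤ)) : Set (ℚ × ℚ) := {p : ℚ × ℚ |
  ∑ i ∈ Finset.range L.length, ∑ j ∈ Finset.range (L.getD i []).length,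
    (((L.getD i []).getD j 0 : ℤ) : ℚ) * p.1 ^ i * p.2 ^ j = 0}

/-- the polynomial `x³ + y³ - A` -/
def cubic (A : ℤ) : List (List ℤ) := [[-A, 0, 0, 1], [], [], [1]]

/-- the numbers `D`: cube-free, prime to `3`, exactly one prime factor congruent to `2` modulo `3` -/
def Family (D : ℕ) : Prop :=
  D ≠ 0 ∧ ¬ 3 ∣ D ∧ (∀ p : ℕ, p.Prime → ¬ p ^ 3 ∣ D) ∧
    ∃ q : ℕ, q.Prime ∧ q % 3 = 2 ∧ q ∣ D ∧ ∀ p : ℕ, p.Prime → p ∣ D → p ≠ q → p % 3 = 1

/-- the number of the prime factors of `D` which are `1` modulo `3` -/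
def ones (D : ℕ) : ℕ := (D.primeFactors.filter fun p => p % 3 = 1).card

/-- the mean of `T ℓ` over the primes `ℓ ≤ X`, `ℓ = j` modulo `9`; the terms of the finitely many `ℓ`
that divide `D` are left out -/
noncomputable def average (j D : ℕ) (T : ℕ → ℝ) (X : ℕ) : ℝ :=
  (∑ l ∈ (Finset.Icc 1 X).filter (fun l => l.Prime ∧ l % 9 = j ∧ ¬ l ∣ D), T l) /
    (((Finset.Icc 1 X).filter fun l => l.Prime ∧ l % 9 = j).card : ℝ)

/-- the iterated limits of the means of `T` over the `k`-fold prime multiples of `D` -/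
noncomputable def iterated (j : ℕ → ℕ) (T : ℕ → ℝ) : ℕ → ℕ → ℝ
  | 0, D => T D
  | k + 1, D => limUnder atTop (average (j k) D (fun l => iterated j T k (D * l)))

/-- the limit of the means over the first prime (of the iterated limits for the others) exists -/
def LimitExists (j : ℕ → ℕ) (T : ℕ → ℝ) (k D : ℕ) : Prop :=
  Tendsto (average (j k) D (fun l => iterated j T k (D * l))) atTop (nhds (iterated j T (k + 1) D))

/-- `φ` halts on all the polynomials `x³ + y³ - N m³`, `m ≠ 0`, with the answer `false` -/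
def Answers (φ : List (List ℤ) →. Bool) (N : ℕ) : Prop :=
  ∀ m : ℤ, m ≠ 0 → false ∈ φ (cubic (N * m ^ 3))

/-- `1` if `φ` halts on all the `x³ + y³ - N m³` with the answer `false`, and `0` otherwise -/
noncomputable def success (φ : List (List ℤ) →. Bool) (N : ℕ) : ℝ := if Answers φ N then 1 else 0

/-- `P` enumerates the prime divisors of `D`, the one which is `2` modulo `3` comes last -/
def IsEnumeration (D n : ℕ) (P : Fin (n + 1) → ℕ) : Prop :=
  Function.Injective P ∧ D.primeFactors = Finset.univ.image P ∧ P (Fin.last n) % 3 = 2 ∧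
    ∀ p : Fin n, P p.castSucc % 3 = 1

/-- the matrix of the symbols; `lam p r` is the logarithm `c` of the cubic residue symbol `ω ^ c` of `r`
modulo a fixed prime element of norm `p` of `ℤ[ω]` -/
noncomputable def symbols (D : ℕ) {n : ℕ} (P : Fin (n + 1) → ℕ) :
    Matrix (Fin n) (Fin (n + 1)) (ZMod 3) :=
  Matrix.of fun p k => (D.factorization (P k) : ZMod 3) * lam (P p.castSucc) (P k)

/-- the matrix `R` with `a` added on the diagonal and with the additional row `b` -/
def enlarge {n : ℕ} (R : Matrix (Fin n) (Fin (n + 1)) (ZMod 3)) (a : Fin n → ZMod 3)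
    (b : Fin (n + 1) → ZMod 3) : Matrix (Fin (n + 1)) (Fin (n + 1)) (ZMod 3) :=
  Matrix.of (Fin.cons b fun p k => R p k + if p.castSucc = k then a p else 0)

/-- the share of the pairs `(a, b)` for which the corank is `r` -/
noncomputable def share {n : ℕ} (R : Matrix (Fin n) (Fin (n + 1)) (ZMod 3)) (r : ℕ) : ℝ :=
  (Nat.card {x : (Fin n → ZMod 3) × (Fin (n + 1) → ZMod 3) //
    (enlarge R x.1 x.2).rank + r = n + 1} : ℝ) / 3 ^ (2 * n + 1)

/-- one step of the Markov chain -/
noncomputable def markov (μ : ℕ → ℝ) (r : ℕ) : ℝ :=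
  (1 - (1 / 3) ^ (r + 1)) ^ 2 * μ (r + 1) +
    ((1 / 3) ^ r * (1 - (1 / 3) ^ (r + 1)) + (1 - (1 / 3) ^ r) * (1 / 3) ^ r) * μ r +
    (if r = 0 then 0 else (1 / 3) ^ (r - 1) * (1 / 3) ^ r * μ (r - 1))

/-- the law of the Markov chain at the time `k` -/
noncomputable def chain {n : ℕ} (R : Matrix (Fin n) (Fin (n + 1)) (ZMod 3)) : ℕ → ℕ → ℝ
  | 0 => share R
  | k + 1 => markov (chain R k)

/-- the classes `j i` are `1, 4, 7`, and `D j_k ⋯ j_0` is not `±1` modulo `9` -/
def Admissible (j : ℕ → ℕ) (k D : ℕ) : Prop :=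
  (∀ i, j i = 1 ∨ j i = 4 ∨ j i = 7) ∧ (D * ∏ i ∈ Finset.range (k + 1), j i) % 9 ≠ 1 ∧
    (D * ∏ i ∈ Finset.range (k + 1), j i) % 9 ≠ 8

/-- `∏_{i ≥ 1} (1 - 3^{-i}) = 0.5601...` -/
noncomputable def limit : ℝ := ∏' i : ℕ, (1 - (1 / 3 : ℝ) ^ (i + 1))

section proof

open Pool.Agent.U687.MC
open Q283.TQ (NSg mu Bs bs_mul)



theorem share_eq {n : ℕ} (R : Matrix (Fin n) (Fin (n + 1)) (ZMod 3)) (r : ℕ) :
    share R r = d2 0 R r := by
  show _ = (∑ a : Fin n → ZMod 3, ∑ b : Fin (n + 1) → ZMod 3, pt r (cor (pert R a b))) /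
      3 ^ (2 * n + 1)
  unfold share
  congr 1
  rw [← Fintype.sum_prod_type' (f := fun (a : Fin n → ZMod 3) (b : Fin (n + 1) → ZMod 3) =>
    pt r (cor (pert R a b))), Nat.card_eq_fintype_card, Fintype.card_subtype, ← Finset.sum_boole]
  refine Finset.sum_congr rfl fun x _ => ?_
  have h1 : enlarge R x.1 x.2 = pert R x.1 x.2 := by
    ext p k
    refine Fin.cases rfl (fun p => rfl) p
  have h := cor_rank (pert R x.1 x.2)
  unfold pt
  rw [h1]
  by_cases hr : cor (pert R x.1 x.2) = r
  · rw [if_pos hr, if_pos (by omega)]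
  · rw [if_neg hr, if_neg (by omega)]

theorem chain_eq {n : ℕ} (R : Matrix (Fin n) (Fin (n + 1)) (ZMod 3)) (k : ℕ) :
    chain R k = d2 k R := by
  induction k with
  | zero =>
    funext r
    exact share_eq R r
  | succ k ih =>
    funext r
    rw [d2_succ k R r, ← ih]
    rfl

theorem bs {D : ℕ} (h : Family D) : Bs D := ⟨⟨h.1, h.2.1, h.2.2.1⟩, h.2.2.2⟩

/-- the property of `φ` used for the law -/
def Decides (φ : List (List ℤ) →. Bool) : Prop :=
  ∀ (D : ℕ) (m : ℤ), CubicTwists.Class D → m ≠ 0 →
    (false ∈ φ (cubic (D * m ^ 3)) ↔ CubicTwists.TrivialThree D)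

theorem answers_iff {φ : List (List ℤ) →. Bool} (hφ : Decides φ) {N : ℕ}
    (hN : Pool.Agent.Y703.CT.Cls N) : Answers φ N ↔ Pool.Agent.Y703.CT.NoSplit N := by
  have hC : CubicTwists.Class N := (CubicTwists.class_iff N).2 hN
  rw [← Pool.Agent.R395.CT.triv3_iff hN, ← CubicTwists.three_iff]
  exact ⟨fun h => (hφ N 1 hC one_ne_zero).1 (h 1 one_ne_zero), fun h m hm => (hφ N m hC hm).2 h⟩

theorem success_cls {φ : List (List ℤ) →. Bool} (hφ : Decides φ) (N : ℕ)
    (hN : Pool.Agent.Y703.CT.Cls N) :
    success φ N = if Pool.Agent.Y703.CT.NoSplit N then 1 else 0 := by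
  unfold success
  by_cases h : Pool.Agent.Y703.CT.NoSplit N
  · rw [if_pos h, if_pos ((answers_iff hφ hN).2 h)]
  · rw [if_neg h, if_neg fun h' => h ((answers_iff hφ hN).1 h')]

theorem average_eq (j D : ℕ) (T : ℕ → ℝ) : average j D T = aq j D T := rfl

theorem iterated_eq (j : ℕ → ℕ) (T : ℕ → ℝ) (k : ℕ) : ∀ D, iterated j T k D = itq j T k D := by
  induction k with
  | zero => exact fun D => rfl
  | succ k ih =>
    intro D
    show limUnder atTop (average (j k) D (fun l => iterated j T k (D * l))) =
      limUnder atTop (aq (j k) D (fun l => itq j T k (D * l)))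
    rw [average_eq]
    congr 2
    funext l
    exact ih (D * l)

theorem main {φ : List (List ℤ) →. Bool} (hφ : Decides φ) {D n : ℕ} {P : Fin (n + 1) → ℕ}
    (hD : Family D) (hP : IsEnumeration D n P) {j : ℕ → ℕ} {k : ℕ} (hj : Admissible j k D) :
    LimitExists j (success φ) k D ∧ iterated j (success φ) (k + 1) D = chain (symbols D P) k 0 := by
  have hE : En D n P := ⟨hP.1, hP.2.1, hP.2.2.1, hP.2.2.2⟩
  obtain ⟨g1, g2⟩ := itq_main j hj.1 1 0 (success φ) (success_cls hφ) k D n P (bs hD) hE
    hj.2.1 hj.2.2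
  rw [EG_uw] at g1 g2
  have e0 : (0 : ℝ) + (1 - 0) * d2 k (RD D P) 0 = chain (symbols D P) k 0 := by
    rw [chain_eq]
    show _ = d2 k (RD D P) 0
    ring
  rw [e0] at g1 g2
  have i1 : iterated j (success φ) (k + 1) D = chain (symbols D P) k 0 :=
    (iterated_eq j (success φ) (k + 1) D).trans g2
  refine ⟨?_, i1⟩
  unfold LimitExists
  rw [i1, average_eq]
  have e1 : (fun l => iterated j (success φ) k (D * l)) =
      fun l => itq j (success φ) k (D * l) := funext fun l => iterated_eq j (success φ) k (D * l)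
  rw [e1]
  exact g1

theorem inf_primes {j : ℕ} (hj : j = 1 ∨ j = 4 ∨ j = 7) :
    {l : ℕ | l.Prime ∧ l % 9 = j}.Infinite := by
  have hc : j.Coprime 9 := by rcases hj with rfl | rfl | rfl <;> decide
  have h := Nat.infinite_setOfPred_prime_and_modEq (q := 9) (a := j) (by norm_num) hc
  refine h.mono fun l hl => ⟨hl.1, ?_⟩
  have h1 : l % 9 = j % 9 := hl.2
  rw [h1]
  rcases hj with rfl | rfl | rfl <;> rfl

/-- if the mean of an indicator has a positive limit then the set is infinite -/
theorem inf_of_limit {j D : ℕ} (hj : j = 1 ∨ j = 4 ∨ j = 7) (Q : ℕ → Prop) [DecidablePred Q]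
    {c : ℝ} (hc : 0 < c)
    (h : Tendsto (average j D fun l => if Q l then 1 else 0) atTop (nhds c)) :
    {l : ℕ | l.Prime ∧ l % 9 = j ∧ Q l}.Infinite := by
  intro hfin
  set F := hfin.toFinset with hF
  obtain ⟨K, hK⟩ := exists_nat_gt ((F.card : ℝ) * 2 / c)
  have hK0 : (0 : ℝ) < K := lt_of_le_of_lt (by positivity) hK
  obtain ⟨S, hS, hSc⟩ := (inf_primes hj).exists_subset_card_eq K
  have hev : ∀ᶠ X in atTop, average j D (fun l => if Q l then 1 else 0) X ≤ c / 2 := by
    filter_upwards [eventually_ge_atTop (S.sup id)] with X hX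
    have h3 : S ⊆ (Finset.Icc 1 X).filter fun l => l.Prime ∧ l % 9 = j := by
      intro l hl
      have h4 := hS hl
      rw [Finset.mem_filter, Finset.mem_Icc]
      exact ⟨⟨h4.1.pos, (Finset.le_sup (f := id) hl).trans hX⟩, h4⟩
    have h4 : (K : ℝ) ≤ (((Finset.Icc 1 X).filter fun l => l.Prime ∧ l % 9 = j).card : ℝ) := by
      rw [← hSc]
      exact_mod_cast Finset.card_le_card h3
    have h5 : (∑ l ∈ (Finset.Icc 1 X).filter (fun l => l.Prime ∧ l % 9 = j ∧ ¬ l ∣ D),
        (if Q l then (1 : ℝ) else 0)) ≤ F.card := by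
      rw [Finset.sum_boole]
      exact_mod_cast Finset.card_le_card fun l hl => by
        rw [Finset.mem_filter, Finset.mem_filter] at hl
        rw [hF, Set.Finite.mem_toFinset]
        exact ⟨hl.1.2.1, hl.1.2.2.1, hl.2⟩
    unfold average
    rw [div_le_iff₀ (hK0.trans_le h4)]
    have h6 : (F.card : ℝ) ≤ c / 2 * K := by
      rw [div_lt_iff₀ hc] at hK
      linarith
    exact h5.trans (h6.trans (mul_le_mul_of_nonneg_left h4 (by positivity)))
  have := le_of_tendsto h hev
  linarith

end proof

open Pool.Agent.U687.MC in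
/-- **Main theorem.** There is a partial computable function `φ` on the polynomials such that:
(1) if `φ(f)` is defined, it is `true` if and only if `f` has infinitely many rational zeros;
(2) `φ` is defined at `x³ + y³ - A` if this polynomial has infinitely many rational zeros;
(3) for every `D` of the family, all `k` and all admissible classes the iterated proportion of the
`N = D ℓ_k ⋯ ℓ_0` such that `φ` halts on all the `x³ + y³ - N m³`, `m ≠ 0`, with the answer `false` exists
and is the probability of `0` of the chain at the time `k`;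
(4) this proportion is at least `(2/3)^(n+1+k)`, at most `2/3`, and its distance from the limit is at most
`(2^n + 1) (2/3)^k`, `n` being the number of the prime factors of `D` which are `1` modulo `3`;
(5) it tends to the limit for `k → ∞`; (6) the limit is between `0.56` and `0.5602`;
(7) for every `D` of the family and every class `j = 1, 4, 7` with `D j` not `±1` modulo `9` there are
infinitely many primes `ℓ = j` modulo `9` such that `φ` answers `false` at all the `x³ + y³ - D ℓ m³`. -/
theorem result :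
    ∃ φ : List (List ℤ) →. Bool, Partrec φ ∧
      (∀ L, ∀ r ∈ φ L, (r = true ↔ (Zeros L).Infinite)) ∧
      (∀ A : ℤ, (Zeros (cubic A)).Infinite → (φ (cubic A)).Dom) ∧
      (∀ (D n : ℕ) (P : Fin (n + 1) → ℕ) (j : ℕ → ℕ) (k : ℕ), Family D → IsEnumeration D n P →
        Admissible j k D → LimitExists j (success φ) k D ∧
          iterated j (success φ) (k + 1) D = chain (symbols D P) k 0) ∧
      (∀ D : ℕ, Family D → (∃ P, IsEnumeration D (ones D) P) ∧
        ∀ (j : ℕ → ℕ) (k : ℕ), Admissible j k D → LimitExists j (success φ) k D ∧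
          (2 / 3 : ℝ) ^ (ones D + 1 + k) ≤ iterated j (success φ) (k + 1) D ∧
          iterated j (success φ) (k + 1) D ≤ 2 / 3 ∧
          |iterated j (success φ) (k + 1) D - limit| ≤ (2 ^ ones D + 1) * (2 / 3) ^ k) ∧
      (∀ (D : ℕ) (j : ℕ → ℕ), Family D → (∀ k, Admissible j k D) →
        Tendsto (fun k => iterated j (success φ) k D) atTop (nhds limit)) ∧
      ((0.56 : ℝ) < limit ∧ limit < 0.5602) ∧
      ∀ D j : ℕ, Family D → (j = 1 ∨ j = 4 ∨ j = 7) → (D * j) % 9 ≠ 1 → (D * j) % 9 ≠ 8 →
        {l : ℕ | l.Prime ∧ l % 9 = j ∧ Answers φ (D * l)}.Infinite := by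
  obtain ⟨φ, hφ, hsound, hcomp, hdec, -⟩ := CubicTwists.result
  have hφ' : Decides φ := hdec
  have part2 : ∀ D : ℕ, Family D → (∃ P, IsEnumeration D (ones D) P) ∧
      ∀ (j : ℕ → ℕ) (k : ℕ), Admissible j k D → LimitExists j (success φ) k D ∧
        (2 / 3 : ℝ) ^ (ones D + 1 + k) ≤ iterated j (success φ) (k + 1) D ∧
        iterated j (success φ) (k + 1) D ≤ 2 / 3 ∧
        |iterated j (success φ) (k + 1) D - limit| ≤ (2 ^ ones D + 1) * (2 / 3) ^ k := by
    intro D hD
    obtain ⟨P, hP⟩ := exists_en (bs hD)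
    have hP' : IsEnumeration D (ones D) P := ⟨hP.inj, hP.img, hP.last, hP.one⟩
    refine ⟨⟨P, hP'⟩, fun j k hj => ?_⟩
    obtain ⟨g1, g2⟩ := main hφ' hD hP' hj
    refine ⟨g1, ?_, ?_, ?_⟩
    · rw [g2, chain_eq]
      exact d2_ge k _
    · rw [g2, chain_eq]
      exact d2_le k _
    · rw [g2, chain_eq]
      exact conv2 k _
  refine ⟨φ, hφ, hsound, hcomp, fun D n P j k hD hP hj => main hφ' hD hP hj,
    part2, ?_, ppi_bounds, ?_⟩
  · intro D j hD hj
    have h := (part2 D hD).2
    rw [← tendsto_add_atTop_iff_nat 1]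
    rw [tendsto_iff_dist_tendsto_zero]
    have h0 : Tendsto (fun k : ℕ => (2 ^ ones D + 1) * (2 / 3 : ℝ) ^ k) atTop (nhds 0) := by
      have := (tendsto_pow_atTop_nhds_zero_of_lt_one (r := (2 / 3 : ℝ)) (by norm_num)
        (by norm_num)).const_mul (2 ^ ones D + 1 : ℝ)
      rwa [mul_zero] at this
    refine squeeze_zero (fun k => dist_nonneg) (fun k => ?_) h0
    rw [Real.dist_eq]
    exact (h j k (hj k)).2.2.2
  · intro D j hD hj h1 h8
    have hA : Admissible (fun _ => j) 0 D := by
      refine ⟨fun _ => hj, ?_, ?_⟩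
      · rw [Finset.prod_range_one]
        exact h1
      · rw [Finset.prod_range_one]
        exact h8
    obtain ⟨hlim, hlow, -⟩ := (part2 D hD).2 (fun _ => j) 0 hA
    have hc : 0 < iterated (fun _ => j) (success φ) (0 + 1) D :=
      lt_of_lt_of_le (by positivity) hlow
    exact inf_of_limit hj (fun l => Answers φ (D * l)) hc hlim

end Pool.Agent.Results.MP_d6ddbd_nt.SuccessivePrimeMultiples
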